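import Pool.Agent.W39.LE.Stm

set_option autoImplicit false

/-! # LEN-AN: comparison of sums from products -/

namespace Pool.Agent.W346.LE

open Filter Topology

/-- the auxiliary function -/
noncomputable def g (a T : ℝ) : ℝ := T * Real.log (T ^ 2 + a ^ 2) + 2 * a * Real.arctan (T / a)

theorem g_zero (a : ℝ) : g a 0 = 0 := by
  unfold g
  simp

theorem g_deriv {a T : ℝ} (hT : 0 < T) :
    HasDerivAt (g a) (Real.log (T ^ 2 + a ^ 2) + 2) T := by
  have hpos : 0 < T ^ 2 + a ^ 2 := by positivity
  have h1 : HasDerivAt (fun T : ℝ => T ^ 2 + a ^ 2) (2 * T) T := by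
    simpa using (hasDerivAt_pow 2 T).add_const (a ^ 2)
  have h2 : HasDerivAt (fun T : ℝ => T * Real.log (T ^ 2 + a ^ 2))
      (1 * Real.log (T ^ 2 + a ^ 2) + T * ((2 * T) / (T ^ 2 + a ^ 2))) T :=
    (hasDerivAt_id T).mul (h1.log hpos.ne')
  have h3 : HasDerivAt (fun T : ℝ => 2 * a * Real.arctan (T / a))
      (2 * a * (1 / (1 + (T / a) ^ 2) * (1 / a))) T :=
    (((hasDerivAt_id T).div_const a).arctan).const_mul (2 * a)
  have h4 := h2.add h3
  refine h4.congr_deriv ?_
  by_cases ha : a = 0
  · subst ha
    simp only [mul_zero, zero_mul, add_zero]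
    field_simp
    ring
  · field_simp
    ring

theorem g_cont (a : ℝ) : Continuous (g a) := by
  by_cases ha : a = 0
  · subst ha
    have : g 0 = fun T => 2 * (T * Real.log T) := by
      funext T
      unfold g
      rw [zero_pow (by norm_num), add_zero, Real.log_pow]
      push_cast
      ring
    rw [this]
    exact continuous_const.mul Real.continuous_mul_log
  · unfold g
    have h1 : ∀ T : ℝ, T ^ 2 + a ^ 2 ≠ 0 := fun T => by positivity
    have h2 : Continuous fun T : ℝ => Real.log (T ^ 2 + a ^ 2) :=
      Continuous.log (by fun_prop) h1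
    have h3 : Continuous fun T : ℝ => Real.arctan (T / a) :=
      Real.continuous_arctan.comp (continuous_id.div_const a)
    exact (continuous_id.mul h2).add (continuous_const.mul h3)

theorem g_lim {a : ℝ} (ha : 0 ≤ a) :
    Tendsto (fun T => g a T - 2 * T * Real.log T) atTop (𝓝 (Real.pi * a)) := by
  have h1 : Tendsto (fun T : ℝ => T * Real.log (1 + a ^ 2 / T ^ 2)) atTop (𝓝 0) := by
    have hb : Tendsto (fun T : ℝ => a ^ 2 / T) atTop (𝓝 0) :=
      tendsto_const_nhds.div_atTop tendsto_id
    refine tendsto_of_tendsto_of_tendsto_of_le_of_le' tendsto_const_nhds hb ?_ ?_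
    · filter_upwards [eventually_gt_atTop 0] with T hT
      have : 0 ≤ Real.log (1 + a ^ 2 / T ^ 2) := Real.log_nonneg (by
        have : 0 ≤ a ^ 2 / T ^ 2 := by positivity
        linarith)
      positivity
    · filter_upwards [eventually_gt_atTop 0] with T hT
      have h2 : Real.log (1 + a ^ 2 / T ^ 2) ≤ a ^ 2 / T ^ 2 := by
        have h0 : 0 < 1 + a ^ 2 / T ^ 2 := by positivity
        have := Real.log_le_sub_one_of_pos h0
        linarith
      calc T * Real.log (1 + a ^ 2 / T ^ 2) ≤ T * (a ^ 2 / T ^ 2) :=
            mul_le_mul_of_nonneg_left h2 hT.le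
        _ = a ^ 2 / T := by field_simp
  have h2 : Tendsto (fun T : ℝ => 2 * a * Real.arctan (T / a)) atTop (𝓝 (Real.pi * a)) := by
    by_cases h0 : a = 0
    · subst h0
      simp
    · have hapos : 0 < a := lt_of_le_of_ne ha (Ne.symm h0)
      have h3 : Tendsto (fun T : ℝ => Real.arctan (T / a)) atTop (𝓝 (Real.pi / 2)) :=
        (Real.tendsto_arctan_atTop.mono_right nhdsWithin_le_nhds).comp
          (tendsto_id.atTop_div_const hapos)
      have h4 := h3.const_mul (2 * a)
      have e : 2 * a * (Real.pi / 2) = Real.pi * a := by ring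
      rwa [e] at h4
  have h3 := h1.add h2
  rw [zero_add] at h3
  refine h3.congr' ?_
  filter_upwards [eventually_gt_atTop 0] with T hT
  unfold g
  have e1 : T ^ 2 + a ^ 2 = T ^ 2 * (1 + a ^ 2 / T ^ 2) := by field_simp
  have h5 : (0 : ℝ) < 1 + a ^ 2 / T ^ 2 := by positivity
  rw [e1, Real.log_mul (by positivity) h5.ne', Real.log_pow]
  push_cast
  ring

theorem F_deriv (A : Multiset ℝ) {T : ℝ} (hT : 0 < T) :
    HasDerivAt (fun T => (A.map fun a => g a T).sum)
      (Real.log (A.map fun a => T ^ 2 + a ^ 2).prod + 2 * Multiset.card A) T ∧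
      0 < (A.map fun a => T ^ 2 + a ^ 2).prod := by
  induction A using Multiset.induction with
  | empty => simpa using hasDerivAt_const T (0 : ℝ)
  | cons a A ih =>
    have hpos : 0 < T ^ 2 + a ^ 2 := by positivity
    simp only [Multiset.map_cons, Multiset.sum_cons, Multiset.prod_cons, Multiset.card_cons]
    refine ⟨?_, mul_pos hpos ih.2⟩
    have h := (g_deriv (a := a) hT).add ih.1
    refine h.congr_deriv ?_
    rw [Real.log_mul hpos.ne' ih.2.ne']
    push_cast
    ring

theorem F_cont (A : Multiset ℝ) : Continuous fun T => (A.map fun a => g a T).sum := by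
  induction A using Multiset.induction with
  | empty => simpa using continuous_const
  | cons a A ih =>
    simp only [Multiset.map_cons, Multiset.sum_cons]
    exact (g_cont a).add ih

theorem F_zero (A : Multiset ℝ) : (A.map fun a => g a 0).sum = 0 := by
  simp [g_zero]

theorem F_lim (A : Multiset ℝ) (hA : ∀ a ∈ A, 0 ≤ a) :
    Tendsto (fun T => (A.map fun a => g a T).sum - Multiset.card A * (2 * T * Real.log T)) atTop
      (𝓝 (Real.pi * A.sum)) := by
  induction A using Multiset.induction with
  | empty => simp
  | cons a A ih =>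
    simp only [Multiset.map_cons, Multiset.sum_cons, Multiset.card_cons]
    have h := (g_lim (hA a (Multiset.mem_cons_self a A))).add
      (ih fun b hb => hA b (Multiset.mem_cons_of_mem hb))
    rw [← mul_add] at h
    refine h.congr fun T => ?_
    push_cast
    ring

theorem t_AN : Pool.W39.LE.S_AN := by
  intro A B hcard hA hB hprod
  set F : ℝ → ℝ := fun T => (A.map fun a => g a T).sum - (B.map fun b => g b T).sum with hF
  have hmono : MonotoneOn F (Set.Ici 0) := by
    refine monotoneOn_of_deriv_nonneg (convex_Ici 0) ((F_cont A).sub (F_cont B)).continuousOn ?_ ?_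
    · intro T hT
      rw [interior_Ici] at hT
      exact ((F_deriv A hT).1.sub (F_deriv B hT).1).differentiableAt.differentiableWithinAt
    · intro T hT
      rw [interior_Ici] at hT
      have hd := ((F_deriv A hT).1.sub (F_deriv B hT).1).deriv
      have hd' : deriv F T = _ := hd
      rw [hd', hcard]
      have h1 := hprod T hT
      have h2 := Real.log_le_log (F_deriv B hT).2 h1
      linarith
  have hF0 : F 0 = 0 := by
    show (A.map fun a => g a 0).sum - (B.map fun b => g b 0).sum = 0
    rw [F_zero, F_zero, sub_zero]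
  have hlim : Tendsto F atTop (𝓝 (Real.pi * A.sum - Real.pi * B.sum)) := by
    refine ((F_lim A hA).sub (F_lim B hB)).congr fun T => ?_
    rw [hcard]
    show _ = (A.map fun a => g a T).sum - (B.map fun b => g b T).sum
    ring
  have hge : 0 ≤ Real.pi * A.sum - Real.pi * B.sum := by
    refine ge_of_tendsto hlim ?_
    filter_upwards [eventually_ge_atTop 0] with T hT
    rw [← hF0]
    exact hmono (Set.mem_Ici.2 le_rfl) hT hT
  have hpi := Real.pi_pos
  nlinarith

end Pool.Agent.W346.LE
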