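import Pool.Agent.W39.LE.Stm

set_option autoImplicit false

/-! # LEN-DISC: complex plane algebra -/

namespace Pool.Agent.W346.LE

open Complex Pool.W39.LE

theorem t_ADD : S_ADD := by
  intro x D1 D2 h1 h2 hx hD1 hD2 H1 H2
  unfold Adm at *
  rw [normSq_apply] at *
  simp only [add_re, add_im, ofReal_re, ofReal_im, add_zero] at *
  set u1 := h1.re + D1
  set u2 := h1.im
  set v1 := h2.re + D2
  set v2 := h2.im
  have e : h1.re + h2.re + (D1 + D2) = u1 + v1 := by simp only [u1, v1]; ring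
  rw [e]
  have k1 : D1 * D2 * ((u1 + v1) * (u1 + v1) + (u2 + v2) * (u2 + v2)) ≤
      (D1 + D2) * (D2 * (u1 * u1 + u2 * u2) + D1 * (v1 * v1 + v2 * v2)) := by
    nlinarith [sq_nonneg (D2 * u1 - D1 * v1), sq_nonneg (D2 * u2 - D1 * v2)]
  have k2 : D1 * D2 * (x * ((u1 + v1) * (u1 + v1) + (u2 + v2) * (u2 + v2))) ≤
      D1 * D2 * ((D1 + D2) * (u2 + v2)) := by
    have k3 : D2 * (x * (u1 * u1 + u2 * u2)) ≤ D2 * (D1 * u2) :=
      mul_le_mul_of_nonneg_left H1 hD2.le
    have k4 : D1 * (x * (v1 * v1 + v2 * v2)) ≤ D1 * (D2 * v2) :=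
      mul_le_mul_of_nonneg_left H2 hD1.le
    have k5 := mul_le_mul_of_nonneg_left k1 hx.le
    have k6 := mul_le_mul_of_nonneg_left (add_le_add k3 k4) (add_pos hD1 hD2).le
    nlinarith
  exact le_of_mul_le_mul_left k2 (mul_pos hD1 hD2)

theorem t_CTX : S_CTX := by
  intro x p q hx hq h
  have hq' : 0 < normSq q := normSq_pos.2 hq
  have hne : p - q ≠ 0 := by
    intro h0
    rw [sub_eq_zero.1 h0, mul_conj, ofReal_im] at h
    nlinarith
  refine ⟨hne, ?_⟩
  unfold Adm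
  have hn : 0 < normSq (p - q) := normSq_pos.2 hne
  have e1 : -p / (p - q) + ((1 : ℝ) : ℂ) = -q / (p - q) := by
    push_cast
    field_simp
    ring
  have e2 : (-p / (p - q)).im = (p * (starRingEnd ℂ) q).im / normSq (p - q) := by
    rw [div_im]
    simp only [neg_im, neg_re, sub_re, sub_im, mul_im, conj_re, conj_im]
    ring
  rw [e1, e2, map_div₀, normSq_neg, one_mul, ← mul_div_assoc]
  exact div_le_div_of_nonneg_right h hn.le

theorem disc_real {x D d e R S a b : ℝ} (hx : 0 < x) (hD : 0 < D) (hd : 0 < d) (he : 0 ≤ e)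
    (hS : 0 ≤ S) (hR : R ≤ S ^ 2)
    (hstep : S * (D * ((4 + x ^ 2) * d)) ≤ (1 - R) * WW x D e +
        x * D * d * (2 * (4 + x ^ 2) - 4 * D + 2 * D * e * x + D * ((4 + x ^ 2) * d)))
    (hadm : x * ((a + D) * (a + D) + b * b) ≤ D * b) :
    R * ((2 + a + e * b) ^ 2 + (x + b - e * a) ^ 2) ≤
      (2 + a + e * b - d * (2 * a - x * b)) ^ 2 + (x + b - e * a - d * (2 * b + x * a)) ^ 2 := by
  have hn : 0 < 4 + x ^ 2 := by positivity
  obtain ⟨n, hndef⟩ : ∃ n, n = 4 + x ^ 2 := ⟨_, rfl⟩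
  have hn' : 0 < n := by rw [hndef]; exact hn
  rw [← hndef] at hstep
  have hW : 0 < WW x D e := by
    unfold WW
    have h1 : 0 < 4 - 3 * D + D ^ 2 := by nlinarith [sq_nonneg (D - 3 / 2)]
    have h2 : 0 < x * (4 - 3 * D + D ^ 2) := mul_pos hx h1
    have h3 : 0 ≤ x * (x + D * e) ^ 2 := by positivity
    have h4 : 0 ≤ 2 * D * e := by positivity
    linarith
  set W := WW x D e with hWdef
  set Q := W / (D ^ 2 * x * n) with hQ
  set wr := (2 - e * x) / n - 1 / D with hwr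
  set wi := -(x + 2 * e) / n - 1 / (2 * x * D) with hwi
  set L := 2 * x * D * d * S with hL
  have hQ0 : 0 < Q := by positivity
  have hL0 : 0 ≤ L := by positivity
  have hnx : n ≠ 0 := hn'.ne'
  have hQid : wr ^ 2 + wi ^ 2 = Q + 1 / (2 * x * D) ^ 2 := by
    rw [hwr, hwi, hQ, hWdef]
    unfold WW
    field_simp
    rw [hndef]
    ring
  set p1 := 2 + a + e * b with hp1
  set p2 := x + b - e * a with hp2
  set y1 := 2 * a - x * b with hy1
  set y2 := 2 * b + x * a with hy2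
  have hid : (p1 ^ 2 + p2 ^ 2) - 2 * (wr * (p1 * y1 + p2 * y2) + wi * (p2 * y1 - p1 * y2)) +
      Q * (y1 ^ 2 + y2 ^ 2) = -(n / (x * D ^ 2)) * (D * b - x * ((a + D) * (a + D) + b * b)) := by
    rw [hwr, hwi, hQ, hWdef, hp1, hp2, hy1, hy2]
    unfold WW
    field_simp
    rw [hndef]
    ring
  have hstar : d * S / (x * D) ≤ (1 - R) * Q + d ^ 2 - 2 * d * wr := by
    have e1 : (1 - R) * Q + d ^ 2 - 2 * d * wr = ((1 - R) * W +
        x * D * d * (2 * n - 4 * D + 2 * D * e * x + D * (n * d))) / (D ^ 2 * x * n) := by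
      rw [hQ, hwr]
      field_simp
      ring
    have e2 : d * S / (x * D) = S * (D * (n * d)) / (D ^ 2 * x * n) := by
      field_simp
    rw [e1, e2]
    exact div_le_div_of_nonneg_right hstep (by positivity)
  have hdet : (d + L * wr) ^ 2 + (L * wi) ^ 2 ≤ (1 - R + L) * (d ^ 2 + L * Q) := by
    have h1 := mul_le_mul_of_nonneg_left hstar hL0
    have e1 : L * (d * S / (x * D)) = 2 * d ^ 2 * S ^ 2 := by
      rw [hL]
      field_simp
    have e2 : L ^ 2 * (1 / (2 * x * D) ^ 2) = d ^ 2 * S ^ 2 := by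
      rw [hL]
      field_simp
    have e3 : L ^ 2 * (wr ^ 2 + wi ^ 2) = L ^ 2 * Q + d ^ 2 * S ^ 2 := by
      rw [hQid, mul_add, e2]
    have e4 : R * d ^ 2 ≤ S ^ 2 * d ^ 2 := mul_le_mul_of_nonneg_right hR (by positivity)
    rw [e1] at h1
    nlinarith
  have hg : 0 < d ^ 2 + L * Q := by positivity
  -- the form is nonnegative
  have hform : 0 ≤ (1 - R + L) * (p1 ^ 2 + p2 ^ 2) -
      2 * ((d + L * wr) * (p1 * y1 + p2 * y2) + L * wi * (p2 * y1 - p1 * y2)) +
      (d ^ 2 + L * Q) * (y1 ^ 2 + y2 ^ 2) := by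
    set G := d ^ 2 + L * Q with hG
    set u := d + L * wr with hu
    set v := L * wi with hv
    have h1 : 0 ≤ G * ((1 - R + L) * (p1 ^ 2 + p2 ^ 2) -
      2 * (u * (p1 * y1 + p2 * y2) + v * (p2 * y1 - p1 * y2)) + G * (y1 ^ 2 + y2 ^ 2)) := by
      have e1 : G * ((1 - R + L) * (p1 ^ 2 + p2 ^ 2) -
          2 * (u * (p1 * y1 + p2 * y2) + v * (p2 * y1 - p1 * y2)) + G * (y1 ^ 2 + y2 ^ 2)) =
          (G * y1 - (u * p1 + v * p2)) ^ 2 + (G * y2 - (u * p2 - v * p1)) ^ 2 +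
          ((1 - R + L) * G - (u ^ 2 + v ^ 2)) * (p1 ^ 2 + p2 ^ 2) := by ring
      rw [e1]
      have h2 : 0 ≤ (1 - R + L) * G - (u ^ 2 + v ^ 2) := by linarith
      positivity
    exact nonneg_of_mul_nonneg_right h1 hg
  have hfin : (p1 - d * y1) ^ 2 + (p2 - d * y2) ^ 2 - R * (p1 ^ 2 + p2 ^ 2) =
      ((1 - R + L) * (p1 ^ 2 + p2 ^ 2) -
      2 * ((d + L * wr) * (p1 * y1 + p2 * y2) + L * wi * (p2 * y1 - p1 * y2)) +
      (d ^ 2 + L * Q) * (y1 ^ 2 + y2 ^ 2)) +
      L * ((n / (x * D ^ 2)) * (D * b - x * ((a + D) * (a + D) + b * b))) := by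
    linear_combination (-L) * hid
  have hlast : 0 ≤ L * ((n / (x * D ^ 2)) * (D * b - x * ((a + D) * (a + D) + b * b))) := by
    have : 0 ≤ D * b - x * ((a + D) * (a + D) + b * b) := by linarith
    positivity
  linarith

theorem t_DISC : S_DISC := by
  intro x D d e R hx hD hd he _ ⟨S, hS, hRS, hstep⟩ h hadm
  unfold Adm at hadm
  rw [normSq_apply] at hadm
  simp only [add_re, add_im, ofReal_re, ofReal_im, add_zero] at hadm
  have key := disc_real hx hD hd he hS hRS hstep hadm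
  have e1 : normSq (zx x + h * (1 - I * e)) =
      (2 + h.re + e * h.im) ^ 2 + (x + h.im - e * h.re) ^ 2 := by
    unfold zx
    rw [normSq_apply]
    simp
    ring
  have e2 : normSq (zx x + h * (1 - I * e - zx x * d)) =
      (2 + h.re + e * h.im - d * (2 * h.re - x * h.im)) ^ 2 +
        (x + h.im - e * h.re - d * (2 * h.im + x * h.re)) ^ 2 := by
    unfold zx
    rw [normSq_apply]
    simp
    ring
  rw [e1, e2]
  exact key

end Pool.Agent.W346.LE
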