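import Pool.Agent.W426.LE.SG

set_option autoImplicit false

/-!
LE-CF: the coefficient formula on the grid.
-/

open Finset
open scoped Classical

namespace Pool.Agent.W346.LE.CF

open Pool.Agent.W426.LE

lemma one_var (d : ℕ) (hd : 0 < d) (m : ℕ) (hm : m ≤ d - 1) :
    ∑ x : Fin d, (((x : ℕ) : ℚ)) ^ m * (∏ c ∈ univ.erase x, (((x : ℕ) : ℚ) - ((c : ℕ) : ℚ)))⁻¹ =
      if m = d - 1 then 1 else 0 := by
  have hvs : Set.InjOn (fun x : Fin d => ((x : ℕ) : ℚ)) ((univ : Finset (Fin d)) : Set (Fin d)) := by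
    intro x _ y _ h
    have h' : ((x : ℕ) : ℚ) = ((y : ℕ) : ℚ) := h
    exact Fin.ext (by exact_mod_cast h')
  have h := Lagrange.coeff_eq_sum (F := ℚ) hvs (P := (Polynomial.X : Polynomial ℚ) ^ m) (by
    rw [Polynomial.degree_X_pow, card_univ, Fintype.card_fin]
    exact_mod_cast (by omega : m < d))
  rw [card_univ, Fintype.card_fin, Polynomial.coeff_X_pow] at h
  simp only [Polynomial.eval_pow, Polynomial.eval_X, div_eq_mul_inv] at h
  rw [← h]
  by_cases hm' : m = d - 1
  · rw [if_pos hm', if_pos hm'.symm]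
  · rw [if_neg hm', if_neg (fun h' => hm' h'.symm)]

theorem main : Pool.Agent.W426.LE.S_CF := by
  intro E _ d hd f hf
  set W : Fin d → ℚ := fun x => (∏ c ∈ univ.erase x, (((x : ℕ) : ℚ) - ((c : ℕ) : ℚ)))⁻¹ with hW
  set t : E →₀ ℕ := Finsupp.equivFunOnFinite.symm (fun _ => d - 1) with ht
  have h1 : ∀ x : E → Fin d, MvPolynomial.eval (fun e => ((x e : ℕ) : ℚ)) f * ∏ e, W (x e) =
      ∑ m ∈ f.support, f.coeff m * ∏ e, ((((x e : ℕ) : ℚ)) ^ (m e) * W (x e)) := by
    intro x
    rw [MvPolynomial.eval_eq', sum_mul]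
    refine sum_congr rfl fun m _ => ?_
    rw [prod_mul_distrib, mul_assoc]
  have h2 : ∀ m ∈ f.support, ∏ e, (∑ x : Fin d, (((x : ℕ) : ℚ)) ^ (m e) * W x) =
      if m = t then 1 else 0 := by
    intro m hm
    by_cases hmt : m = t
    · rw [if_pos hmt]
      refine prod_eq_one fun e _ => ?_
      have h3 : m e = d - 1 := by rw [hmt, ht]; rfl
      rw [h3, hW, one_var d hd (d - 1) le_rfl, if_pos rfl]
    · rw [if_neg hmt]
      have h3 : ∃ e, m e < d - 1 := by
        by_contra hcon
        push Not at hcon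
        have h4 : ∑ e, m e ≤ Fintype.card E * (d - 1) := by
          refine le_trans ?_ ((MvPolynomial.le_totalDegree hm).trans hf)
          rw [Finsupp.sum_fintype _ _ (fun _ => rfl)]
        have h5 : Fintype.card E * (d - 1) = ∑ _e : E, (d - 1) := by
          rw [sum_const, card_univ, smul_eq_mul]
        rw [h5] at h4
        have h6 := (sum_eq_sum_iff_of_le (s := univ) (f := fun _ : E => d - 1) (g := fun e => m e)
          (fun e _ => hcon e)).1 (le_antisymm (sum_le_sum fun e _ => hcon e) h4)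
        apply hmt
        ext e
        rw [ht]
        exact (h6 e (mem_univ e)).symm
      obtain ⟨e, he⟩ := h3
      refine prod_eq_zero (mem_univ e) ?_
      rw [hW, one_var d hd (m e) he.le, if_neg he.ne]
  have h7 : ∑ x : E → Fin d, MvPolynomial.eval (fun e => ((x e : ℕ) : ℚ)) f * ∏ e, W (x e) =
      ∑ m ∈ f.support, f.coeff m * (if m = t then 1 else 0) := by
    simp only [h1]
    rw [sum_comm]
    refine sum_congr rfl fun m hm => ?_
    rw [← mul_sum, ← h2 m hm, Fintype.prod_sum]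
  show MvPolynomial.coeff t f = ∑ x : E → Fin d,
    MvPolynomial.eval (fun e => ((x e : ℕ) : ℚ)) f * ∏ e, W (x e)
  rw [h7]
  simp only [mul_ite, mul_one, mul_zero]
  rw [sum_ite_eq' f.support t (fun m => f.coeff m)]
  split_ifs with h
  · rfl
  · exact MvPolynomial.notMem_support_iff.1 h

end Pool.Agent.W346.LE.CF
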