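import Pool.Agent.W426.LE.SG

set_option autoImplicit false

/-!
LE-KEY: sums over a set with a free action of a `p`-group, modulo `p^(a+1)`.
-/

open Finset
open scoped Classical

namespace Pool.Agent.W346.LE.KEY

open Pool.Agent.W426.LE

theorem main : Pool.Agent.W426.LE.S_KEY := by
  intro X A _ _ _ _ p a hp hA hfree g hgA ⟨k, hk⟩ w hwA hwg
  have : Fact p.Prime := ⟨hp⟩
  set Y : Set X := {x | ∃ α : A, g x = α • x} with hY
  -- uniqueness of the group element
  have huniq : ∀ (x : X) (α β : A), α • x = β • x → α = β := by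
    intro x α β h
    have h1 : (β⁻¹ * α) • x = x := by rw [mul_smul, h, inv_smul_smul]
    have h2 := hfree _ _ h1
    exact (inv_mul_eq_one.1 h2).symm
  -- step 1: the second sum
  have hstep : ∑ α : A, ∑ x ∈ univ.filter (fun x => g x = α • x), w x =
      ∑ x ∈ univ.filter (fun x => x ∈ Y), w x := by
    simp only [sum_filter]
    rw [sum_comm]
    refine sum_congr rfl fun x _ => ?_
    by_cases hx : x ∈ Y
    · rw [if_pos hx]
      obtain ⟨α, hα⟩ := hx
      rw [sum_eq_single α]
      · rw [if_pos hα]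
      · intro β _ hβ
        rw [if_neg]
        intro h
        exact hβ (huniq x β α (h.symm.trans hα))
      · intro h
        exact absurd (mem_univ α) h
    · rw [if_neg hx]
      refine sum_eq_zero fun α _ => ?_
      rw [if_neg]
      intro h
      exact hx ⟨α, h⟩
  have hsplit : (∑ x, w x) - ∑ x ∈ univ.filter (fun x => x ∈ Y), w x =
      ∑ x ∈ univ.filter (fun x => x ∉ Y), w x := by
    rw [sub_eq_iff_eq_add, add_comm]
    exact (sum_filter_add_sum_filter_not univ (fun x => x ∈ Y) w).symm
  rw [hstep, hsplit]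
  -- the group
  have hcomm : ∀ (α : A) (h : Subgroup.zpowers g),
      Commute (MulAction.toPermHom A X α) ((Subgroup.zpowers g).subtype h) := by
    rintro α ⟨h, n, rfl⟩
    have h1 : Commute (MulAction.toPermHom A X α) g := by
      show (MulAction.toPermHom A X α) * g = g * (MulAction.toPermHom A X α)
      ext x
      show α • g x = g (α • x)
      exact (hgA α x).symm
    exact h1.zpow_right n
  set φ : A × Subgroup.zpowers g →* Equiv.Perm X :=
    MonoidHom.noncommCoprod (MulAction.toPermHom A X) (Subgroup.zpowers g).subtype hcomm with hφ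
  have hφa : ∀ (α : A) (h : Subgroup.zpowers g), φ (α, h) = MulAction.toPermHom A X α * (h : Equiv.Perm X) := by
    intro α h
    rw [hφ, MonoidHom.noncommCoprod_apply]
    rfl
  have hpg : IsPGroup p (A × Subgroup.zpowers g) := by
    obtain ⟨j, _, hj⟩ := (Nat.dvd_prime_pow hp).1 (orderOf_dvd_of_pow_eq_one hk)
    refine IsPGroup.of_card (n := a + j) ?_
    rw [Nat.card_prod, Nat.card_zpowers, hj, Nat.card_eq_fintype_card, hA, pow_add]
  have hpr : IsPGroup p φ.range := hpg.of_surjective φ.rangeRestrict φ.rangeRestrict_surjective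
  -- invariance
  let S : Subgroup (Equiv.Perm X) :=
    { carrier := {h | (∀ x, w (h x) = w x) ∧ ∀ x, h x ∈ Y ↔ x ∈ Y}
      mul_mem' := by
        rintro h h' ⟨h1, h2⟩ ⟨h3, h4⟩
        exact ⟨fun x => by rw [Equiv.Perm.mul_apply, h1, h3],
          fun x => by rw [Equiv.Perm.mul_apply, h2, h4]⟩
      one_mem' := ⟨fun x => rfl, fun x => Iff.rfl⟩
      inv_mem' := by
        rintro h ⟨h1, h2⟩
        refine ⟨fun x => ?_, fun x => ?_⟩
        · rw [← h1 (h⁻¹ x), ← Equiv.Perm.mul_apply, mul_inv_cancel, Equiv.Perm.one_apply]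
        · rw [← h2 (h⁻¹ x), ← Equiv.Perm.mul_apply, mul_inv_cancel, Equiv.Perm.one_apply] }
  have hSg : g ∈ S := by
    refine ⟨hwg, fun x => ?_⟩
    constructor
    · rintro ⟨α, hα⟩
      refine ⟨α, g.injective ?_⟩
      rw [hα, hgA]
    · rintro ⟨α, hα⟩
      refine ⟨α, ?_⟩
      rw [hα, hgA, hα]
  have hSA : ∀ α : A, MulAction.toPermHom A X α ∈ S := by
    intro α
    refine ⟨fun x => hwA α x, fun x => ?_⟩
    constructor
    · rintro ⟨β, hβ⟩
      have hβ' : g (α • x) = β • (α • x) := hβ
      refine ⟨β, ?_⟩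
      rw [hgA, smul_smul, mul_comm, ← smul_smul] at hβ'
      exact smul_left_cancel α hβ'
    · rintro ⟨β, hβ⟩
      refine ⟨β, ?_⟩
      show g (α • x) = β • (α • x)
      rw [hgA, hβ, smul_smul, smul_smul, mul_comm]
  have hle : φ.range ≤ S := by
    rintro _ ⟨⟨α, h⟩, rfl⟩
    rw [hφa]
    exact S.mul_mem (hSA α) ((Subgroup.zpowers_le.2 hSg) h.2)
  -- orbits outside Y
  have horb : ∀ x, x ∉ Y → (p : ℤ) ^ (a + 1) ∣
      ((univ.filter (fun y => y ∈ MulAction.orbit φ.range x)).card : ℤ) := by
    intro x hx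
    obtain ⟨n, hn⟩ := hpr.card_orbit x
    have hn' : (univ.filter (fun y => y ∈ MulAction.orbit φ.range x)).card = p ^ n := by
      rw [← hn, Nat.card_eq_fintype_card, Fintype.card_subtype]
    have hbig : p ^ a < p ^ n := by
      rw [← hn', ← hA, ← card_univ (α := A)]
      have h1 : (insert (g x) (univ.image (fun α : A => α • x))) ⊆
          univ.filter (fun y => y ∈ MulAction.orbit φ.range x) := by
        intro y hy
        rw [mem_filter]
        refine ⟨mem_univ _, ?_⟩
        rw [mem_insert, mem_image] at hy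
        rcases hy with rfl | ⟨α, _, rfl⟩
        · refine ⟨⟨φ (1, ⟨g, Subgroup.mem_zpowers g⟩), ⟨_, rfl⟩⟩, ?_⟩
          show (φ (1, ⟨g, Subgroup.mem_zpowers g⟩)) x = g x
          rw [hφa, map_one, one_mul]
        · refine ⟨⟨φ (α, 1), ⟨_, rfl⟩⟩, ?_⟩
          show (φ (α, 1)) x = α • x
          rw [hφa]
          rfl
      have h2 := card_le_card h1
      rw [card_insert_of_notMem, card_image_of_injective] at h2
      · omega
      · intro α β h
        exact huniq x α β h
      · intro h
        rw [mem_image] at h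
        obtain ⟨α, _, hα⟩ := h
        exact hx ⟨α, hα.symm⟩
    have h3 : a < n := (Nat.pow_lt_pow_iff_right hp.one_lt).1 hbig
    rw [hn']
    have h4 : p ^ (a + 1) ∣ p ^ n := pow_dvd_pow p h3
    exact_mod_cast h4
  -- the sum
  let _ : Fintype (Quotient (MulAction.orbitRel φ.range X)) := Fintype.ofFinite _
  rw [← sum_fiberwise (univ.filter (fun x => x ∉ Y))
    (fun x => (Quotient.mk (MulAction.orbitRel φ.range X) x)) w]
  refine dvd_sum fun q _ => ?_
  rcases (filter (fun i => Quotient.mk (MulAction.orbitRel φ.range X) i = q)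
    (univ.filter (fun x => x ∉ Y))).eq_empty_or_nonempty with h0 | ⟨x0, hx0⟩
  · rw [h0, sum_empty]
    exact dvd_zero _
  · rw [mem_filter, mem_filter] at hx0
    obtain ⟨⟨_, hx1⟩, hx2⟩ := hx0
    have h5 : filter (fun i => Quotient.mk (MulAction.orbitRel φ.range X) i = q)
        (univ.filter (fun x => x ∉ Y)) = univ.filter (fun y => y ∈ MulAction.orbit φ.range x0) := by
      ext y
      rw [mem_filter, mem_filter, mem_filter, ← hx2]
      constructor
      · rintro ⟨_, h6⟩
        exact ⟨mem_univ _, MulAction.orbitRel_apply.1 (Quotient.exact h6)⟩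
      · rintro ⟨_, h6⟩
        refine ⟨⟨mem_univ _, ?_⟩, Quotient.sound (MulAction.orbitRel_apply.2 h6)⟩
        obtain ⟨γ, rfl⟩ := h6
        intro h7
        exact hx1 (((hle γ.2).2 x0).1 h7)
    rw [h5]
    have h6 : ∑ x ∈ univ.filter (fun y => y ∈ MulAction.orbit φ.range x0), w x =
        ((univ.filter (fun y => y ∈ MulAction.orbit φ.range x0)).card : ℤ) * w x0 := by
      rw [sum_congr rfl (g := fun _ => w x0), sum_const, nsmul_eq_mul]
      intro y hy
      rw [mem_filter] at hy
      obtain ⟨γ, rfl⟩ := hy.2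
      exact (hle γ.2).1 x0
    rw [h6]
    exact Dvd.dvd.mul_right (horb x0 hx1) _

end Pool.Agent.W346.LE.KEY
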